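import Mathlib

/-! The second nonzero binary digit of the coefficients `c_3(n)`. -/

set_option autoImplicit false

namespace Pool.Agent.Results.MP_96deef_nt.BoundedM3

open PowerSeries Finset

/-- `S_{k,m}(n)`: the coefficient of `x^n` in `(1 - x)^{-m} ∏_{j ≥ 0} (1 - x^{k^j})^{-(k-1)m}`.
Here `(1 - x)^{-1} = ∑ x^i`, `(1 - x^{k^j})^{-1} = ∑_{k^j ∣ i} x^i`, and (for `k ≥ 2`) the factors
with `j > n` do not contribute to the coefficient of `x^n`. -/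
noncomputable def S (k m n : ℕ) : ℕ :=
  coeff n ((mk fun _ => (1 : ℕ)) ^ m *
    ∏ j ∈ range (n + 1), (mk fun i => if k ^ j ∣ i then (1 : ℕ) else 0) ^ ((k - 1) * m))

/-- `u_m(n) = ν_2(w - 1)` where `w` is the odd part of `c_m(n) = S_{2,m}(n)` (with the value `⊤`
for `w = 1`). -/
noncomputable def u (m n : ℕ) : ℕ∞ :=
  emultiplicity 2 (S 2 m n / 2 ^ (padicValNat 2 (S 2 m n)) - 1)

/-! ### power series identities over the integers -/

noncomputable section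

/-- `1 / (1 - x)` -/
def g : ℤ⟦X⟧ := mk fun _ => 1
/-- `x ↦ x ^ 2` -/
def ex : ℤ⟦X⟧ →ₐ[ℤ] ℤ⟦X⟧ := expand 2 two_ne_zero
/-- `x / (1 - x)` -/
def y : ℤ⟦X⟧ := X * g
/-- `1 / (1 - x^{2^j})` -/
def G (j : ℕ) : ℤ⟦X⟧ := mk fun i => if 2 ^ j ∣ i then 1 else 0
/-- the truncated product -/
def FN (N : ℕ) : ℤ⟦X⟧ := g ^ 3 * ∏ j ∈ range N, (G j) ^ 3

lemma hg : g * (1 - X) = 1 := mk_one_mul_one_sub_eq_one ℤ

lemma hh : ex g * (1 - X ^ 2) = 1 := by
  have h := congrArg ex hg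
  rw [map_mul, map_sub, map_one] at h
  have hX : ex X = X ^ 2 := by unfold ex; exact expand_X 2 two_ne_zero
  rwa [hX] at h

lemma e1 : (1 + X) * ex g = g := by
  linear_combination (-(1 + X) * ex g) * hg + g * hh

lemma G_zero : G 0 = g := by
  ext i
  simp [G, g]

lemma ex_G (j : ℕ) : ex (G j) = G (j + 1) := by
  ext i
  unfold ex G
  rw [coeff_expand, coeff_mk]
  simp only [coeff_mk]
  by_cases h : 2 ∣ i
  · obtain ⟨t, rfl⟩ := h
    rw [if_pos (dvd_mul_right 2 t), Nat.mul_div_cancel_left _ (by norm_num), pow_succ, mul_comm 2 t,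
      ]
    congr 1
    rw [eq_iff_iff]
    exact (Nat.mul_dvd_mul_iff_right (by norm_num)).symm
  · rw [if_neg h, if_neg]
    intro h2
    exact h (dvd_trans (dvd_pow_self 2 (by omega)) h2)

lemma FN_succ (N : ℕ) : FN (N + 1) = (1 + 2 * y) ^ 3 * ex (FN N) := by
  have h1 : (1 + 2 * y) * ex g = g ^ 2 := by
    unfold y
    linear_combination (-(2 * g * X + (1 + X) * g - g) * 0 - ex g) * hg + (g + g) * 0 * hh + g * e1
  unfold FN
  rw [map_mul, map_pow, map_prod, prod_range_succ', G_zero]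
  have h2 : ∏ k ∈ range N, ex (G k ^ 3) = ∏ k ∈ range N, G (k + 1) ^ 3 := by
    apply prod_congr rfl
    intro k _
    rw [map_pow, ex_G]
  rw [h2]
  have h3 : g ^ 3 * g ^ 3 = (1 + 2 * y) ^ 3 * (ex g) ^ 3 := by
    rw [← mul_pow (1 + 2 * y), h1]; ring
  calc g ^ 3 * ((∏ k ∈ range N, G (k + 1) ^ 3) * g ^ 3)
      = (g ^ 3 * g ^ 3) * ∏ k ∈ range N, G (k + 1) ^ 3 := by ring
    _ = _ := by rw [h3]; ring

lemma y_split : y = ex y + X * (1 + ex y) := by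
  have hX : ex X = X ^ 2 := by unfold ex; exact expand_X 2 two_ne_zero
  unfold y
  rw [map_mul, hX]
  linear_combination (-X) * e1 + X * hh

lemma z_rel : X ^ 2 * (1 + ex y) = ex y := by
  have hX : ex X = X ^ 2 := by unfold ex; exact expand_X 2 two_ne_zero
  unfold y
  rw [map_mul, hX]
  linear_combination (-X ^ 2) * hh

/-- even part of `y ^ j` -/
def A : ℕ → ℤ⟦X⟧ × ℤ⟦X⟧
  | 0 => (1, 0)
  | j + 1 => (y * ((A j).1 + (A j).2), (1 + y) * (A j).1 + y * (A j).2)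

lemma y_pow (j : ℕ) : y ^ j = ex (A j).1 + X * ex (A j).2 := by
  induction j with
  | zero => simp [A]
  | succ j ih =>
    rw [pow_succ, ih]
    simp only [A, map_mul, map_add, map_one]
    linear_combination (ex (A j).1 + X * ex (A j).2) * y_split + (ex (A j).2) * z_rel

/-- the coefficients of `y ^ j * F_N` -/
def V (j N n : ℕ) : ℤ := coeff n (y ^ j * FN N)

lemma coeff_even (A' B' : ℤ⟦X⟧) (n : ℕ) : coeff (2 * n) (ex A' + X * ex B') = coeff n A' := by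
  rw [map_add]
  have h1 : coeff (2 * n) (ex A') = coeff n A' := by unfold ex; exact coeff_expand_mul 2 two_ne_zero _ _
  have h2 : coeff (2 * n) (X * ex B') = 0 := by
    rcases Nat.eq_zero_or_pos n with h | h
    · subst h; simp
    · obtain ⟨t, rfl⟩ : ∃ t, n = t + 1 := ⟨n - 1, by omega⟩
      rw [show 2 * (t + 1) = (2 * t + 1) + 1 by ring, coeff_succ_X_mul]
      unfold ex
      exact coeff_expand_of_not_dvd 2 two_ne_zero _ (by omega)
  rw [h1, h2, add_zero]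

lemma coeff_odd (A' B' : ℤ⟦X⟧) (n : ℕ) : coeff (2 * n + 1) (ex A' + X * ex B') = coeff n B' := by
  rw [map_add]
  have h1 : coeff (2 * n + 1) (ex A') = 0 := by
    unfold ex
    exact coeff_expand_of_not_dvd 2 two_ne_zero _ (by omega)
  have h2 : coeff (2 * n + 1) (X * ex B') = coeff n B' := by
    rw [coeff_succ_X_mul]
    unfold ex; exact coeff_expand_mul 2 two_ne_zero _ _
  rw [h1, h2, zero_add]

/-- even part of `(1 + 2 y)^3 y^j` -/
def P (j : ℕ) : ℤ⟦X⟧ := (A j).1 + 6 * (A (j + 1)).1 + 12 * (A (j + 2)).1 + 8 * (A (j + 3)).1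
/-- odd part of `(1 + 2 y)^3 y^j` -/
def R (j : ℕ) : ℤ⟦X⟧ := (A j).2 + 6 * (A (j + 1)).2 + 12 * (A (j + 2)).2 + 8 * (A (j + 3)).2

lemma split_main (j N : ℕ) :
    y ^ j * FN (N + 1) = ex (P j * FN N) + X * ex (R j * FN N) := by
  rw [FN_succ]
  have h : y ^ j * (1 + 2 * y) ^ 3 = ex (P j) + X * ex (R j) := by
    have e : y ^ j * (1 + 2 * y) ^ 3 = y ^ j + 6 * y ^ (j + 1) + 12 * y ^ (j + 2) +
      8 * y ^ (j + 3) := by ring
    rw [e, y_pow j, y_pow (j + 1), y_pow (j + 2), y_pow (j + 3)]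
    unfold P R
    simp only [map_add, map_mul, map_ofNat]
    ring
  rw [map_mul, map_mul, ← mul_assoc, h]
  ring

lemma V_even (j N n : ℕ) : V j (N + 1) (2 * n) = coeff n (P j * FN N) := by
  unfold V
  rw [split_main, coeff_even]

lemma V_odd (j N n : ℕ) : V j (N + 1) (2 * n + 1) = coeff n (R j * FN N) := by
  unfold V
  rw [split_main, coeff_odd]


lemma P_eq_0 (N n : ℕ) : V 0 (N + 1) (2 * n) = 1 * V 0 N n + 18 * V 1 N n + 48 * V 2 N n + 32 * V 3 N n := by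
  have h : P 0 * FN N = (1 : ℤ) • (y ^ 0 * FN N) + (18 : ℤ) • (y ^ 1 * FN N) + (48 : ℤ) • (y ^ 2 * FN N) + (32 : ℤ) • (y ^ 3 * FN N) := by
    simp only [P, A, zsmul_eq_mul]
    push_cast
    ring
  rw [V_even, h]
  simp only [map_add, map_zsmul, smul_eq_mul, V]


lemma P_eq_1 (N n : ℕ) : V 1 (N + 1) (2 * n) = 7 * V 1 N n + 56 * V 2 N n + 112 * V 3 N n + 64 * V 4 N n := by
  have h : P 1 * FN N = (7 : ℤ) • (y ^ 1 * FN N) + (56 : ℤ) • (y ^ 2 * FN N) + (112 : ℤ) • (y ^ 3 * FN N) + (64 : ℤ) • (y ^ 4 * FN N) := by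
    simp only [P, A, zsmul_eq_mul]
    push_cast
    ring
  rw [V_even, h]
  simp only [map_add, map_zsmul, smul_eq_mul, V]


lemma P_eq_2 (N n : ℕ) : V 2 (N + 1) (2 * n) = 1 * V 1 N n + 32 * V 2 N n + 160 * V 3 N n + 256 * V 4 N n + 128 * V 5 N n := by
  have h : P 2 * FN N = (1 : ℤ) • (y ^ 1 * FN N) + (32 : ℤ) • (y ^ 2 * FN N) + (160 : ℤ) • (y ^ 3 * FN N) + (256 : ℤ) • (y ^ 4 * FN N) + (128 : ℤ) • (y ^ 5 * FN N) := by
    simp only [P, A, zsmul_eq_mul]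
    push_cast
    ring
  rw [V_even, h]
  simp only [map_add, map_zsmul, smul_eq_mul, V]


lemma P_eq_3 (N n : ℕ) : V 3 (N + 1) (2 * n) = 9 * V 2 N n + 120 * V 3 N n + 432 * V 4 N n + 576 * V 5 N n + 256 * V 6 N n := by
  have h : P 3 * FN N = (9 : ℤ) • (y ^ 2 * FN N) + (120 : ℤ) • (y ^ 3 * FN N) + (432 : ℤ) • (y ^ 4 * FN N) + (576 : ℤ) • (y ^ 5 * FN N) + (256 : ℤ) • (y ^ 6 * FN N) := by
    simp only [P, A, zsmul_eq_mul]
    push_cast
    ring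
  rw [V_even, h]
  simp only [map_add, map_zsmul, smul_eq_mul, V]


lemma P_eq_4 (N n : ℕ) : V 4 (N + 1) (2 * n) = 1 * V 2 N n + 50 * V 3 N n + 400 * V 4 N n + 1120 * V 5 N n + 1280 * V 6 N n + 512 * V 7 N n := by
  have h : P 4 * FN N = (1 : ℤ) • (y ^ 2 * FN N) + (50 : ℤ) • (y ^ 3 * FN N) + (400 : ℤ) • (y ^ 4 * FN N) + (1120 : ℤ) • (y ^ 5 * FN N) + (1280 : ℤ) • (y ^ 6 * FN N) + (512 : ℤ) • (y ^ 7 * FN N) := by
    simp only [P, A, zsmul_eq_mul]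
    push_cast
    ring
  rw [V_even, h]
  simp only [map_add, map_zsmul, smul_eq_mul, V]


lemma P_eq_5 (N n : ℕ) : V 5 (N + 1) (2 * n) = 11 * V 3 N n + 220 * V 4 N n + 1232 * V 5 N n + 2816 * V 6 N n + 2816 * V 7 N n + 1024 * V 8 N n := by
  have h : P 5 * FN N = (11 : ℤ) • (y ^ 3 * FN N) + (220 : ℤ) • (y ^ 4 * FN N) + (1232 : ℤ) • (y ^ 5 * FN N) + (2816 : ℤ) • (y ^ 6 * FN N) + (2816 : ℤ) • (y ^ 7 * FN N) + (1024 : ℤ) • (y ^ 8 * FN N) := by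
    simp only [P, A, zsmul_eq_mul]
    push_cast
    ring
  rw [V_even, h]
  simp only [map_add, map_zsmul, smul_eq_mul, V]


lemma R_eq_0 (N n : ℕ) : V 0 (N + 1) (2 * n + 1) = 6 * V 0 N n + 38 * V 1 N n + 64 * V 2 N n + 32 * V 3 N n := by
  have h : R 0 * FN N = (6 : ℤ) • (y ^ 0 * FN N) + (38 : ℤ) • (y ^ 1 * FN N) + (64 : ℤ) • (y ^ 2 * FN N) + (32 : ℤ) • (y ^ 3 * FN N) := by
    simp only [R, A, zsmul_eq_mul]
    push_cast
    ring
  rw [V_odd, h]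
  simp only [map_add, map_zsmul, smul_eq_mul, V]


lemma R_eq_1 (N n : ℕ) : V 1 (N + 1) (2 * n + 1) = 1 * V 0 N n + 25 * V 1 N n + 104 * V 2 N n + 144 * V 3 N n + 64 * V 4 N n := by
  have h : R 1 * FN N = (1 : ℤ) • (y ^ 0 * FN N) + (25 : ℤ) • (y ^ 1 * FN N) + (104 : ℤ) • (y ^ 2 * FN N) + (144 : ℤ) • (y ^ 3 * FN N) + (64 : ℤ) • (y ^ 4 * FN N) := by
    simp only [R, A, zsmul_eq_mul]
    push_cast
    ring
  rw [V_odd, h]
  simp only [map_add, map_zsmul, smul_eq_mul, V]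


lemma R_eq_2 (N n : ℕ) : V 2 (N + 1) (2 * n + 1) = 8 * V 1 N n + 88 * V 2 N n + 272 * V 3 N n + 320 * V 4 N n + 128 * V 5 N n := by
  have h : R 2 * FN N = (8 : ℤ) • (y ^ 1 * FN N) + (88 : ℤ) • (y ^ 2 * FN N) + (272 : ℤ) • (y ^ 3 * FN N) + (320 : ℤ) • (y ^ 4 * FN N) + (128 : ℤ) • (y ^ 5 * FN N) := by
    simp only [R, A, zsmul_eq_mul]
    push_cast
    ring
  rw [V_odd, h]
  simp only [map_add, map_zsmul, smul_eq_mul, V]


lemma R_eq_3 (N n : ℕ) : V 3 (N + 1) (2 * n + 1) = 1 * V 1 N n + 41 * V 2 N n + 280 * V 3 N n + 688 * V 4 N n + 704 * V 5 N n + 256 * V 6 N n := by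
  have h : R 3 * FN N = (1 : ℤ) • (y ^ 1 * FN N) + (41 : ℤ) • (y ^ 2 * FN N) + (280 : ℤ) • (y ^ 3 * FN N) + (688 : ℤ) • (y ^ 4 * FN N) + (704 : ℤ) • (y ^ 5 * FN N) + (256 : ℤ) • (y ^ 6 * FN N) := by
    simp only [R, A, zsmul_eq_mul]
    push_cast
    ring
  rw [V_odd, h]
  simp only [map_add, map_zsmul, smul_eq_mul, V]


lemma R_eq_4 (N n : ℕ) : V 4 (N + 1) (2 * n + 1) = 10 * V 2 N n + 170 * V 3 N n + 832 * V 4 N n + 1696 * V 5 N n + 1536 * V 6 N n + 512 * V 7 N n := by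
  have h : R 4 * FN N = (10 : ℤ) • (y ^ 2 * FN N) + (170 : ℤ) • (y ^ 3 * FN N) + (832 : ℤ) • (y ^ 4 * FN N) + (1696 : ℤ) • (y ^ 5 * FN N) + (1536 : ℤ) • (y ^ 6 * FN N) + (512 : ℤ) • (y ^ 7 * FN N) := by
    simp only [R, A, zsmul_eq_mul]
    push_cast
    ring
  rw [V_odd, h]
  simp only [map_add, map_zsmul, smul_eq_mul, V]


lemma R_eq_5 (N n : ℕ) : V 5 (N + 1) (2 * n + 1) = 1 * V 2 N n + 61 * V 3 N n + 620 * V 4 N n + 2352 * V 5 N n + 4096 * V 6 N n + 3328 * V 7 N n + 1024 * V 8 N n := by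
  have h : R 5 * FN N = (1 : ℤ) • (y ^ 2 * FN N) + (61 : ℤ) • (y ^ 3 * FN N) + (620 : ℤ) • (y ^ 4 * FN N) + (2352 : ℤ) • (y ^ 5 * FN N) + (4096 : ℤ) • (y ^ 6 * FN N) + (3328 : ℤ) • (y ^ 7 * FN N) + (1024 : ℤ) • (y ^ 8 * FN N) := by
    simp only [R, A, zsmul_eq_mul]
    push_cast
    ring
  rw [V_odd, h]
  simp only [map_add, map_zsmul, smul_eq_mul, V]


end

/-! ### the automaton -/

/-- a state: residues of `V_0, …, V_5` modulo `64, 32, 16, 8, 4, 2` -/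
abbrev St := ℤ × ℤ × ℤ × ℤ × ℤ × ℤ

/-- transition for the digit `0` -/
def step0 (s : St) : St :=
  ((1 * s.1 + 18 * s.2.1 + 48 * s.2.2.1 + 32 * s.2.2.2.1) % 64,
   (7 * s.2.1 + 56 * s.2.2.1 + 112 * s.2.2.2.1) % 32,
   (1 * s.2.1) % 16,
   (9 * s.2.2.1) % 8,
   (1 * s.2.2.1 + 50 * s.2.2.2.1) % 4,
   (11 * s.2.2.2.1) % 2)

/-- transition for the digit `1` -/
def step1 (s : St) : St :=
  ((6 * s.1 + 38 * s.2.1 + 32 * s.2.2.2.1) % 64,
   (1 * s.1 + 25 * s.2.1 + 104 * s.2.2.1 + 144 * s.2.2.2.1) % 32,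
   (8 * s.2.1 + 88 * s.2.2.1) % 16,
   (1 * s.2.1 + 41 * s.2.2.1) % 8,
   (10 * s.2.2.1 + 170 * s.2.2.2.1) % 4,
   (1 * s.2.2.1 + 61 * s.2.2.2.1) % 2)

/-- the reachable states -/
def states : List St := [(6, 1, 0, 0, 0, 0), (6, 1, 0, 0, 2, 1), (6, 9, 7, 1, 1, 0), (6, 9, 7, 1, 3, 1), (10, 7, 9, 7, 1, 1), (10, 7, 9, 7, 3, 0), (10, 31, 8, 1, 0, 0), (10, 31, 8, 1, 2, 1), (22, 9, 7, 1, 1, 0), (22, 9, 7, 1, 3, 1), (22, 17, 8, 7, 0, 0), (22, 17, 8, 7, 2, 1), (24, 7, 1, 0, 0, 0), (24, 7, 9, 7, 1, 1), (24, 9, 7, 1, 3, 1), (24, 9, 15, 0, 2, 1), (24, 23, 1, 0, 0, 0), (24, 23, 9, 7, 1, 1), (24, 25, 7, 1, 3, 1), (24, 25, 15, 0, 2, 1), (26, 7, 9, 7, 1, 1), (26, 7, 9, 7, 3, 0), (26, 15, 0, 0, 0, 0), (26, 15, 0, 0, 2, 1), (38, 17, 0, 0, 0, 0), (38, 17, 0, 0, 2, 1), (38, 25, 7, 1, 1, 0), (38, 25, 7, 1, 3, 1), (40, 7, 1, 0, 2, 1), (40, 7, 9, 7, 1, 1), (40, 9, 7, 1, 3, 1), (40, 9, 15, 0, 0, 0),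 (40, 23, 1, 0, 2, 1), (40, 23, 9, 7, 1, 1), (40, 25, 7, 1, 3, 1), (40, 25, 15, 0, 0, 0), (42, 15, 8, 1, 0, 0), (42, 15, 8, 1, 2, 1), (42, 23, 9, 7, 1, 1), (42, 23, 9, 7, 3, 0), (54, 1, 8, 7, 0, 0), (54, 1, 8, 7, 2, 1), (54, 25, 7, 1, 1, 0), (54, 25, 7, 1, 3, 1), (58, 23, 9, 7, 1, 1), (58, 23, 9, 7, 3, 0), (58, 31, 0, 0, 0, 0), (58, 31, 0, 0, 2, 1)]

lemma closed0 : ∀ s ∈ states, step0 s ∈ states := by decide
lemma closed1 : ∀ s ∈ states, step1 s ∈ states := by decide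
lemma good : ∀ s ∈ states, s.1 % 16 = 6 ∨ s.1 % 16 = 10 ∨ s.1 = 24 ∨ s.1 = 40 := by decide

/-- the state of `n` -/
noncomputable def st (N n : ℕ) : St :=
  (V 0 N n % 64, V 1 N n % 32, V 2 N n % 16, V 3 N n % 8, V 4 N n % 4, V 5 N n % 2)

lemma st_even (N n : ℕ) : st (N + 1) (2 * n) = step0 (st N n) := by
  unfold st step0
  rw [P_eq_0, P_eq_1, P_eq_2, P_eq_3, P_eq_4, P_eq_5]
  simp only [Prod.mk.injEq]
  refine ⟨?_, ?_, ?_, ?_, ?_, ?_⟩ <;> omega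

lemma st_odd (N n : ℕ) : st (N + 1) (2 * n + 1) = step1 (st N n) := by
  unfold st step1
  rw [R_eq_0, R_eq_1, R_eq_2, R_eq_3, R_eq_4, R_eq_5]
  simp only [Prod.mk.injEq]
  refine ⟨?_, ?_, ?_, ?_, ?_, ?_⟩ <;> omega

lemma V_zero (j N : ℕ) : V j N 0 = if j = 0 then 1 else 0 := by
  unfold V
  have hF : coeff 0 (FN N) = 1 := by
    unfold FN
    rw [coeff_zero_eq_constantCoeff_apply, map_mul, map_pow, map_prod]
    have h1 : constantCoeff g = 1 := by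
      rw [← coeff_zero_eq_constantCoeff_apply]; simp [g]
    have h2 : ∀ j ∈ range N, constantCoeff (G j ^ 3) = 1 := by
      intro j _
      rw [map_pow, ← coeff_zero_eq_constantCoeff_apply]; simp [G]
    rw [h1, prod_congr rfl h2]; simp
  rw [coeff_zero_eq_constantCoeff_apply, map_mul, map_pow, ← coeff_zero_eq_constantCoeff_apply (φ := FN N), hF]
  have hy : constantCoeff y = 0 := by unfold y; simp
  rw [hy]
  split_ifs with h
  · simp [h]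
  · simp [h]

lemma st_mem (N : ℕ) : ∀ n, 1 ≤ n → n < 2 ^ N → st N n ∈ states := by
  induction N with
  | zero => intro n h1 h2; simp at h2; omega
  | succ N ih =>
    intro n h1 h2
    rcases Nat.even_or_odd' n with ⟨t, rfl | rfl⟩
    · rw [st_even]
      exact closed0 _ (ih t (by omega) (by rw [pow_succ] at h2; omega))
    · rw [st_odd]
      rcases Nat.eq_zero_or_pos t with h | h
      · subst h
        have : st N 0 = (1, 0, 0, 0, 0, 0) := by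
          unfold st
          simp [V_zero]
        rw [this]
        decide
      · exact closed1 _ (ih t (by omega) (by rw [pow_succ] at h2; omega))

lemma S_eq (n : ℕ) : ((S 2 3 n : ℕ) : ℤ) = V 0 (n + 1) n := by
  unfold S V FN
  rw [pow_zero, one_mul]
  have h := PowerSeries.coeff_map (Nat.castRingHom ℤ) n ((mk fun _ => (1 : ℕ)) ^ 3 *
    ∏ j ∈ range (n + 1), (mk fun i => if 2 ^ j ∣ i then (1 : ℕ) else 0) ^ ((2 - 1) * 3))
  rw [Nat.coe_castRingHom] at h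
  rw [← h]
  congr 1
  rw [map_mul, map_pow, map_prod]
  have h1 : PowerSeries.map (Nat.castRingHom ℤ) (mk fun _ => (1 : ℕ)) = g := by
    ext i
    simp [g]
  have h2 : ∀ j ∈ range (n + 1), PowerSeries.map (Nat.castRingHom ℤ)
      ((mk fun i => if 2 ^ j ∣ i then (1 : ℕ) else 0) ^ ((2 - 1) * 3)) = G j ^ 3 := by
    intro j _
    rw [map_pow]
    congr 1
    ext i
    simp [G]
  rw [h1, prod_congr rfl h2]

/-- `c_3(n)` modulo `64` -/
lemma residue (n : ℕ) (hn : 1 ≤ n) : S 2 3 n % 16 = 6 ∨ S 2 3 n % 16 = 10 ∨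
    S 2 3 n % 64 = 24 ∨ S 2 3 n % 64 = 40 := by
  have h1 := st_mem (n + 1) n hn (lt_trans (Nat.lt_two_pow_self) (Nat.pow_lt_pow_right (by norm_num)
    (by omega)))
  have h2 := good _ h1
  have h3 : (st (n + 1) n).1 = ((S 2 3 n : ℕ) : ℤ) % 64 := by rw [S_eq]; rfl
  rw [h3] at h2
  omega

lemma emult_one (w : ℕ) (h : w % 8 = 3) : emultiplicity 2 (w - 1) = 1 := by
  have : emultiplicity 2 (w - 1) = ((1 : ℕ) : ℕ∞) := by
    rw [emultiplicity_eq_coe]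
    constructor <;> omega
  exact_mod_cast this

lemma emult_two (w : ℕ) (h : w % 8 = 5) : emultiplicity 2 (w - 1) = 2 := by
  have : emultiplicity 2 (w - 1) = ((2 : ℕ) : ℕ∞) := by
    rw [emultiplicity_eq_coe]
    constructor <;> omega
  exact_mod_cast this

lemma val_one (c : ℕ) (h : c % 4 = 2) : padicValNat 2 c = 1 := by
  obtain ⟨w, rfl⟩ : ∃ w, c = 2 * w := ⟨c / 2, by omega⟩
  rw [padicValNat.mul (by norm_num) (by omega), padicValNat.self (by norm_num),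
    padicValNat.eq_zero_of_not_dvd (by omega)]

lemma val_three (c : ℕ) (h : c % 16 = 8) : padicValNat 2 c = 3 := by
  obtain ⟨w, rfl⟩ : ∃ w, c = 2 ^ 3 * w := ⟨c / 8, by omega⟩
  rw [padicValNat.mul (by norm_num) (by omega), padicValNat.prime_pow,
    padicValNat.eq_zero_of_not_dvd (by omega)]

/-- **Answer to Q1: yes**, for `p = 2` and `m = 3`: the sequence `u_3(n)`, `n ≥ 1`, takes only the
values `1` and `2`. -/
theorem result : ∃ m : ℕ, 0 < m ∧ ∀ n : ℕ, 1 ≤ n → u m n = 1 ∨ u m n = 2 := by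
  refine ⟨3, by norm_num, fun n hn => ?_⟩
  unfold u
  have h := residue n hn
  set c := S 2 3 n with hc
  rcases (by omega : c % 4 = 2 ∨ c % 16 = 8) with h4 | h16
  · rw [val_one c h4, pow_one]
    rcases (by omega : c / 2 % 8 = 3 ∨ c / 2 % 8 = 5) with h8 | h8
    · exact Or.inl (emult_one _ h8)
    · exact Or.inr (emult_two _ h8)
  · rw [val_three c h16]
    rcases (by omega : c / 2 ^ 3 % 8 = 3 ∨ c / 2 ^ 3 % 8 = 5) with h8 | h8
    · exact Or.inl (emult_one _ h8)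
    · exact Or.inr (emult_two _ h8)

end Pool.Agent.Results.MP_96deef_nt.BoundedM3
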